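import Pool.Agent.Lib.MP_5b16f0_gt.Final

/-!
# MP_5b16f0_gt, Q1: finite type invariants of links versus string links

Links and string links are given by tangle words (diagrams in general position with respect to the
height function, read from bottom to top) modulo Turaev's moves, see
`Pool.Agent.Lib.MP_5b16f0_gt.Defs`.

**Theorem.** If two links are not separated by any finite type invariant of links, then they are
not separated by type `n` invariants of string links (`L ≈ₙ L'`), for every `n`.

The proof: words without closed components from `V` to `V` (with distinct labels) form a group
modulo the `(n + 1)`-st term of the Vassiliev filtration (`group_prop`); cutting every component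
twice, the stabiliser of the caps acts on the finitely generated abelian group generated by the
cut-open links modulo that term (`nc_fg`), the action is unipotent, and two links are `≈ₙ`
equivalent if their cut-open versions lie in the same orbit (`approx_of_rel`); the orbit is an
isotopy invariant (`rel_iso`).  Orbits of unipotent actions are separated by the quotients modulo
prime powers (`orbit_separable`), and functions to `F_p` of the orbit modulo `p ^ s` are finite
type invariants of links (`comp_poly`).
-/

namespace Pool.Agent.Results.MP_5b16f0_gt.Main

open MP5b16f0

/-- If all finite type invariants of `m`-component links (of any type, with values in any abelian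
group) agree on `L` and `L'`, then `L ≈ₙ L'` for every `n`. -/
theorem result (m : ℕ) (L L' : Word (Fin m)) (hL : LinkWord m L) (hL' : LinkWord m L')
    (h : ∀ (N : ℕ) (A : Type) [AddCommGroup A] (v : Word (Fin m) → A),
      LinkType m N v → v L = v L') :
    ∀ n : ℕ, Approx m n L L' :=
  fun n => main hL hL' h n

end Pool.Agent.Results.MP_5b16f0_gt.Main
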